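import Pool.Agent.Results.MP_29e051_nt.NotAutomatic

/-!
# Erdos's construction with one place left free for a multiple of a prime
-/

set_option autoImplicit false

namespace Pool.Agent.Y951.EB

open Finset Pool.Agent.Results.MP_29e051_nt.NotAutomatic

theorem construct2 (k L i S D : ℕ) (p : ℕ → ℕ) (hk : 2 ≤ k) (hL : 0 < L) (hi : i < L)
    (hS : 2 * L ≤ 2 ^ S) (hD : 0 < D) (hD2 : ∀ r : ℕ, r.Prime → r ∣ D → r ≤ 2)
    (hprime : ∀ r, (p r).Prime) (hgt : ∀ r, 2 ^ S < p r) (hmono : StrictMono p)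
    (hle : ∀ r, p r ≤ 2 ^ (2 * r + 2 + S)) :
    ∃ b M : ℕ, 2 ^ S < M ∧ M ≤ 2 ^ ((8 * L ^ 2 + S) * (4 * L ^ 2 * k)) ∧ M ≤ b ∧ b < 2 * M ∧
      b.Coprime M ∧
      (∀ t, ∀ j < 2 * L, j ≠ i → k ^ (2 * L) ∣ (D * b - i + j + D * M * t).divisors.card) ∧
      (∀ j < 2 ^ S, 2 * L ≤ j → ∀ h, h ∣ D * b - i + j → h ∣ D * M → h ≤ D) ∧
      (∀ r : ℕ, r.Prime → r ∣ M → ∃ u, r = p u) := by
  classical
  have hinj := hmono.injective
  have hS2 : 2 ≤ 2 ^ S := by omega
  set q : ℕ → ℕ := fun j => ∏ t ∈ range (2 * L), p (2 * L * j + t) with hq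
  have hqpos : ∀ j, 0 < q j := fun j => Finset.prod_pos (fun t _ => (hprime _).pos)
  have hp0 : ∀ j, p (2 * L * j + 0) ∣ q j := fun j =>
    Finset.dvd_prod_of_mem (fun t => p (2 * L * j + t)) (mem_range.mpr (by omega))
  have hqbig : ∀ j, 2 ^ S < q j := fun j =>
    (hgt _).trans_le (Nat.le_of_dvd (hqpos j) (hp0 j))
  have hqone : ∀ j, 1 < q j := fun j => by have := hqbig j; omega
  have hqprime' : ∀ j r, Nat.Prime r → r ∣ q j → ∃ u, r = p u := by
    intro j r hr hrq
    obtain ⟨t, _, ht⟩ := (Prime.dvd_finsetProd_iff hr.prime _).mp hrq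
    rw [Nat.prime_dvd_prime_iff_eq hr (hprime _)] at ht
    exact ⟨_, ht⟩
  have hqprime : ∀ j r, Nat.Prime r → r ∣ q j → 2 ^ S < r := by
    intro j r hr hrq
    obtain ⟨u, rfl⟩ := hqprime' j r hr hrq
    exact hgt _
  have hqcop : ∀ j j', j ≠ j' → Nat.Coprime (q j) (q j') := by
    intro j j' hjj
    apply Nat.Coprime.prod_left
    intro t ht
    apply Nat.Coprime.prod_right
    intro t' ht'
    rw [Nat.coprime_primes (hprime _) (hprime _)]
    intro heq
    have h1 := hinj heq
    have ht1 := mem_range.mp ht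
    have ht1' := mem_range.mp ht'
    apply hjj
    have h2 : (2 * L * j + t) / (2 * L) = j := by
      rw [Nat.mul_add_div (by omega), Nat.div_eq_of_lt ht1, add_zero]
    have h3 : (2 * L * j' + t') / (2 * L) = j' := by
      rw [Nat.mul_add_div (by omega), Nat.div_eq_of_lt ht1', add_zero]
    rw [← h2, ← h3, h1]
  have hDcop : ∀ j, Nat.Coprime D ((q j) ^ k) := by
    intro j
    apply Nat.Coprime.pow_right
    rw [Nat.coprime_iff_gcd_eq_one]
    by_contra hne
    obtain ⟨r, hr, hrd⟩ := Nat.exists_prime_and_dvd hne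
    have h1 := hqprime j r hr (hrd.trans (Nat.gcd_dvd_right _ _))
    have h2 := hD2 r hr (hrd.trans (Nat.gcd_dvd_left _ _))
    omega
  have hinv : ∀ j, ∃ u, D * u % (q j) ^ k = 1 := fun j => by
    obtain ⟨m, _, hm⟩ := Nat.exists_mul_mod_eq_one_of_coprime (hDcop j)
      (Nat.one_lt_pow (by omega) (hqone j))
    exact ⟨m, hm⟩
  choose u hu using hinv
  set s : ℕ → ℕ := fun j => (q j) ^ k with hs
  have hspos : ∀ j, 0 < s j := fun j => pow_pos (hqpos j) _
  set rr : ℕ → ℕ := fun j => u j * ((q j) ^ (k - 1) + i + (q j) ^ k * j - j) with hrr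
  set I : Finset ℕ := (range (2 * L)).erase i with hI
  have hcop : Set.Pairwise (↑I : Set ℕ) (Function.onFun Nat.Coprime s) := by
    intro j _ j' _ hjj
    show Nat.Coprime (s j) (s j')
    exact (hqcop j j' hjj).pow k k
  obtain ⟨b0, hb0, hb0lt⟩ : ∃ b0 : ℕ, (∀ j ∈ I, b0 ≡ rr j [MOD s j]) ∧
      b0 < ∏ j ∈ I, s j :=
    ⟨(Nat.chineseRemainderOfFinset rr s I (fun j _ => (hspos j).ne') hcop : ℕ),
      (Nat.chineseRemainderOfFinset rr s I (fun j _ => (hspos j).ne') hcop).2,
      Nat.chineseRemainderOfFinset_lt_prod rr s (fun j _ => (hspos j).ne') hcop⟩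
  set M := ∏ j ∈ I, s j with hM
  have hMpos : 0 < M := Finset.prod_pos (fun j _ => hspos j)
  have hsM : ∀ j ∈ I, s j ∣ M := fun j hj => Finset.dvd_prod_of_mem _ hj
  have hjI : ∀ j < 2 * L, j ≠ i → j ∈ I := fun j hj hji => mem_erase.2 ⟨hji, mem_range.2 hj⟩
  have hMbig : 2 ^ S < M := by
    obtain ⟨j, hj, hji⟩ : ∃ j, j < 2 * L ∧ j ≠ i := ⟨i + 1, by omega, by omega⟩
    have h1 := Nat.le_of_dvd hMpos (hsM j (hjI j hj hji))
    have h2 : q j ≤ s j := Nat.le_self_pow (by omega) _
    exact (hqbig j).trans_le (h2.trans h1)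
  set b := b0 + M with hb
  have hibM : i < M := by omega
  have hDb : i ≤ D * b := by
    have : b ≤ D * b := Nat.le_mul_of_pos_left b hD
    omega
  -- congruence of `D b`
  have hDbmod : ∀ j ∈ I, D * b + j ≡ (q j) ^ (k - 1) + i [MOD (q j) ^ k] := by
    intro j hj
    have h1 : b ≡ rr j [MOD s j] := by
      have h3 : M ≡ 0 [MOD s j] := (Nat.modEq_zero_iff_dvd).mpr (hsM j hj)
      simpa [hb] using Nat.ModEq.add (hb0 j hj) h3
    have h2 : D * b ≡ D * rr j [MOD s j] := Nat.ModEq.mul_left D h1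
    set X := (q j) ^ (k - 1) + i + (q j) ^ k * j - j with hX
    have h3 : D * rr j ≡ X [MOD s j] := by
      have h4 : D * rr j = (D * u j) * X := by simp only [hrr]; ring
      rw [h4]
      have h5 : D * u j ≡ 1 [MOD s j] := by
        unfold Nat.ModEq
        rw [hs]
        simp only
        rw [hu j, Nat.mod_eq_of_lt (Nat.one_lt_pow (by omega) (hqone j))]
      simpa using Nat.ModEq.mul_right X h5
    have h6 : X + j = (q j) ^ (k - 1) + i + (q j) ^ k * j := by
      have : j ≤ (q j) ^ k * j := Nat.le_mul_of_pos_left j (hspos j)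
      omega
    have h7 : D * b + j ≡ X + j [MOD s j] := Nat.ModEq.add_right j (h2.trans h3)
    rw [h6] at h7
    refine h7.trans ?_
    have h8 : (q j) ^ k * j ≡ 0 [MOD (q j) ^ k] := (Nat.modEq_zero_iff_dvd).mpr (dvd_mul_right _ _)
    have h9 := Nat.ModEq.add_left ((q j) ^ (k - 1) + i) h8
    rw [add_zero] at h9
    exact h9
  have hform : ∀ t, ∀ j ∈ I,
      ∃ v, D * b - i + j + D * M * t = (q j) ^ (k - 1) * (q j * v + 1) := by
    intro t j hj
    have h1 : D * b - i + j + D * M * t + i ≡ (q j) ^ (k - 1) + i [MOD (q j) ^ k] := by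
      have e1 : D * b - i + j + D * M * t + i = (D * b + j) + D * M * t := by omega
      rw [e1]
      have h3 : D * M * t ≡ 0 [MOD (q j) ^ k] :=
        (Nat.modEq_zero_iff_dvd).mpr (((hsM j hj).mul_left D).mul_right t)
      simpa using Nat.ModEq.add (hDbmod j hj) h3
    have h5 : D * b - i + j + D * M * t ≡ (q j) ^ (k - 1) [MOD (q j) ^ k] :=
      Nat.ModEq.add_right_cancel' i h1
    have hlt : (q j) ^ (k - 1) < (q j) ^ k := Nat.pow_lt_pow_right (hqone j) (by omega)
    have h6 : (D * b - i + j + D * M * t) % (q j) ^ k = (q j) ^ (k - 1) := by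
      have h7 := h5
      unfold Nat.ModEq at h7
      rw [h7, Nat.mod_eq_of_lt hlt]
    refine ⟨(D * b - i + j + D * M * t) / (q j) ^ k, ?_⟩
    have h8 := Nat.div_add_mod (D * b - i + j + D * M * t) ((q j) ^ k)
    rw [h6] at h8
    have h9 : (q j) ^ k = (q j) ^ (k - 1) * q j := by
      rw [← pow_succ]; congr 1; omega
    have h10 : ∀ v, (q j) ^ (k - 1) * (q j * v + 1) = (q j) ^ k * v + (q j) ^ (k - 1) := by
      intro v
      rw [h9]
      ring
    rw [h10, h8]
  refine ⟨b, M, hMbig, ?_, by omega, by omega, ?_, ?_, ?_, ?_⟩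
  · -- size of `M`
    have hbound : ∀ j ∈ I, s j ≤ 2 ^ ((8 * L ^ 2 + S) * (2 * L * k)) := by
      intro j hj
      have hj' := mem_range.mp (mem_erase.1 hj).2
      have hqle : q j ≤ 2 ^ ((8 * L ^ 2 + S) * (2 * L)) := by
        have h1 : q j ≤ (2 ^ (8 * L ^ 2 + S)) ^ (range (2 * L)).card := by
          apply Finset.prod_le_pow_card
          intro t ht
          have ht' := mem_range.mp ht
          refine (hle _).trans ?_
          apply Nat.pow_le_pow_right (by norm_num)
          have h2 : 2 * L * j + t + 1 ≤ 4 * L ^ 2 := by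
            have h3 : 2 * L * (j + 1) ≤ 2 * L * (2 * L) := Nat.mul_le_mul_left _ (by omega)
            nlinarith
          omega
        rw [card_range, ← pow_mul] at h1
        exact h1
      calc (q j) ^ k ≤ (2 ^ ((8 * L ^ 2 + S) * (2 * L))) ^ k := Nat.pow_le_pow_left hqle k
        _ = 2 ^ ((8 * L ^ 2 + S) * (2 * L * k)) := by rw [← pow_mul]; congr 1; ring
    have h1 := Finset.prod_le_pow_card I s _ hbound
    have h2 : I.card ≤ 2 * L := (card_le_card (erase_subset _ _)).trans (by rw [card_range])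
    refine h1.trans ?_
    rw [← pow_mul]
    apply Nat.pow_le_pow_right (by norm_num)
    calc (8 * L ^ 2 + S) * (2 * L * k) * I.card ≤ (8 * L ^ 2 + S) * (2 * L * k) * (2 * L) :=
          Nat.mul_le_mul_left _ h2
      _ = (8 * L ^ 2 + S) * (4 * L ^ 2 * k) := by ring
  · -- coprimality
    apply Nat.Coprime.prod_right
    intro j hj
    apply Nat.Coprime.pow_right
    rw [Nat.coprime_iff_gcd_eq_one]
    by_contra hne
    obtain ⟨r, hr, hrd⟩ := Nat.exists_prime_and_dvd hne
    have hrb := hrd.trans (Nat.gcd_dvd_left _ _)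
    have hrq := hrd.trans (Nat.gcd_dvd_right _ _)
    have hrS := hqprime j r hr hrq
    have hj' := mem_erase.1 hj
    have hj2 := mem_range.1 hj'.2
    have h1 : D * b + j ≡ (q j) ^ (k - 1) + i [MOD r] :=
      (hDbmod j hj).of_dvd (hrq.trans (dvd_pow_self _ (by omega)))
    have h2 : D * b ≡ 0 [MOD r] := (Nat.modEq_zero_iff_dvd).mpr (hrb.mul_left D)
    have h3 : (q j) ^ (k - 1) ≡ 0 [MOD r] :=
      (Nat.modEq_zero_iff_dvd).mpr (hrq.trans (dvd_pow_self _ (by omega)))
    have h4 : j ≡ i [MOD r] := by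
      have h5 : D * b + j ≡ 0 + j [MOD r] := Nat.ModEq.add_right j h2
      have h6 : (q j) ^ (k - 1) + i ≡ 0 + i [MOD r] := Nat.ModEq.add_right i h3
      rw [zero_add] at h5 h6
      exact h5.symm.trans (h1.trans h6)
    unfold Nat.ModEq at h4
    rw [Nat.mod_eq_of_lt (by omega), Nat.mod_eq_of_lt (by omega)] at h4
    exact hj'.1 h4
  · intro t j hj hji
    obtain ⟨v, hv⟩ := hform t j (hjI j hj hji)
    rw [hv]
    have hc : Nat.Coprime ((q j) ^ (k - 1)) (q j * v + 1) := by
      apply Nat.Coprime.pow_left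
      simp
    rw [Nat.Coprime.card_divisors_mul hc]
    rw [hq]
    simp only
    rw [card_divisors_prod_pow p hprime hinj k (by omega) (2 * L * j) (2 * L)]
    exact dvd_mul_right _ _
  · intro j hjS hj h hha hhM
    have hcop2 : Nat.Coprime h M := by
      apply Nat.Coprime.prod_right
      intro j' hj'
      have hj2 := mem_range.1 (mem_erase.1 hj').2
      apply Nat.Coprime.pow_right
      rw [Nat.coprime_iff_gcd_eq_one]
      by_contra hne
      obtain ⟨r, hr, hrd⟩ := Nat.exists_prime_and_dvd hne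
      have h1 := hqprime j' r hr (hrd.trans (Nat.gcd_dvd_right _ _))
      have h2 : r ∣ D * b - i + j := (hrd.trans (Nat.gcd_dvd_left _ _)).trans hha
      have h3 : r ∣ D * b - i + j' := by
        obtain ⟨v, hv⟩ := hform 0 j' hj'
        simp only [mul_zero, add_zero] at hv
        rw [hv]
        apply Dvd.dvd.mul_right
        exact (hrd.trans (Nat.gcd_dvd_right _ _)).trans (dvd_pow_self _ (by omega))
      have h4 : r ∣ j - j' := by
        have := Nat.dvd_sub h2 h3
        have h5 : D * b - i + j - (D * b - i + j') = j - j' := by omega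
        rwa [h5] at this
      have := Nat.le_of_dvd (by omega) h4
      omega
    exact Nat.le_of_dvd hD (hcop2.dvd_of_dvd_mul_right hhM)
  · intro r hr hrM
    obtain ⟨j, _, hj⟩ := (Prime.dvd_finsetProd_iff hr.prime _).mp hrM
    exact hqprime' j r hr (hr.dvd_of_dvd_pow hj)

end Pool.Agent.Y951.EB
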