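import Pool.Agent.Y951.EB.Cons

/-!
# Counting: one dyadic block with many primes, few bad parameters
-/

set_option autoImplicit false

namespace Pool.Agent.Y951.EB

open Finset Pool.Agent.Results.MP_29e051_nt.NotAutomatic

theorem dyadic (z M b K Z μ : ℕ) (c : ℝ) (hz : z = 2 ^ Z) (hM : 0 < M) (hMμ : M ≤ 2 ^ μ)
    (hμ : μ + 2 ≤ Z) (hb : b < 2 * M) (hK : 1 ≤ K) (hc : 0 < c)
    (hsum : c / (M : ℝ) ≤
      ∑ p ∈ (Ioc z (z ^ K)).filter (fun p => p.Prime ∧ p ≡ b [MOD M]), (1 : ℝ) / p) :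
    ∃ β, Z ≤ β + μ + 1 ∧ β < K * Z ∧ c * 2 ^ β / ((K : ℝ) * Z) ≤
      (((range (2 ^ (β + 1))).filter (fun t => (b + M * t).Prime ∧ z < b + M * t)).card : ℝ) := by
  classical
  set P := (Ioc z (z ^ K)).filter (fun p => p.Prime ∧ p ≡ b [MOD M]) with hP
  by_contra hcon
  push Not at hcon
  have hZ : 0 < Z := by omega
  have hM0 : (0 : ℝ) < M := by exact_mod_cast hM
  have hKZ : (0 : ℝ) < (K : ℝ) * Z := by
    have : (0 : ℝ) < K := by exact_mod_cast hK
    have : (0 : ℝ) < Z := by exact_mod_cast hZ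
    positivity
  have hbz : b < z := by
    have h1 : 2 * 2 ^ μ ≤ 2 ^ Z := by
      rw [← pow_succ']
      exact Nat.pow_le_pow_right (by norm_num) (by omega)
    rw [hz]
    omega
  -- the parameter of a prime
  have hpt : ∀ p ∈ P, b + M * ((p - b) / M) = p ∧ 0 < (p - b) / M ∧
      Z ≤ Nat.log 2 ((p - b) / M) + μ + 1 ∧ Nat.log 2 ((p - b) / M) < K * Z := by
    intro p hp
    rw [hP, mem_filter, mem_Ioc] at hp
    obtain ⟨⟨h1, h2⟩, h3, h4⟩ := hp
    have h5 : M ∣ p - b := (Nat.modEq_iff_dvd' (by omega)).mp h4.symm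
    have h6 : M * ((p - b) / M) = p - b := Nat.mul_div_cancel' h5
    have h7 : b + M * ((p - b) / M) = p := by omega
    have h8 : 2 ^ (Z - μ - 1) ≤ (p - b) / M := by
      rw [Nat.le_div_iff_mul_le hM]
      have h9 : 2 ^ (Z - μ - 1) * M ≤ 2 ^ (Z - 1) := by
        calc 2 ^ (Z - μ - 1) * M ≤ 2 ^ (Z - μ - 1) * 2 ^ μ := Nat.mul_le_mul_left _ hMμ
          _ = 2 ^ (Z - 1) := by rw [← pow_add]; congr 1; omega
      have h10 : 2 ^ Z = 2 * 2 ^ (Z - 1) := by
        rw [← pow_succ']; congr 1; omega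
      have h11 : 2 * M ≤ 2 ^ (Z - 1) := by
        calc 2 * M ≤ 2 * 2 ^ μ := by omega
          _ = 2 ^ (μ + 1) := by rw [pow_succ']
          _ ≤ 2 ^ (Z - 1) := Nat.pow_le_pow_right (by norm_num) (by omega)
      omega
    have h9 : 0 < (p - b) / M := lt_of_lt_of_le (by positivity) h8
    refine ⟨h7, h9, ?_, ?_⟩
    · have := Nat.le_log_of_pow_le (by norm_num) h8
      omega
    · apply Nat.log_lt_of_lt_pow h9.ne'
      have h10 : (p - b) / M ≤ p - b := Nat.div_le_self _ _
      have hM1 : 0 < b ∨ b = 0 := by omega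
      rcases hM1 with hb0 | hb0
      · rw [mul_comm, pow_mul, ← hz]
        omega
      · -- `b = 0`: the prime is divisible by `M`
        rcases Nat.lt_or_ge 1 M with hM2 | hM2
        · have h11 : (p - b) / M < p - b := Nat.div_lt_self (by omega) hM2
          rw [mul_comm, pow_mul, ← hz]
          omega
        · rw [mul_comm, pow_mul, ← hz]
          rcases Nat.lt_or_ge p (z ^ K) with h12 | h12
          · omega
          · exfalso
            have h13 : p = z ^ K := le_antisymm h2 h12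
            rw [h13, hz, ← pow_mul] at h3
            have h14 : Z * K = 1 := by
              by_contra hne
              have h15 : 2 ≤ Z * K := by
                have : 0 < Z * K := by positivity
                omega
              exact Nat.Prime.not_prime_pow h15 h3
            have h16 : Z ∣ 1 := ⟨K, h14.symm⟩
            have h17 := Nat.le_of_dvd one_pos h16
            omega
  -- fibres
  have hfib : ∑ p ∈ P, (1 : ℝ) / p = ∑ β ∈ range (K * Z),
      ∑ p ∈ P.filter (fun p => Nat.log 2 ((p - b) / M) = β), (1 : ℝ) / p := by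
    rw [sum_fiberwise_of_maps_to]
    intro p hp
    exact mem_range.2 (hpt p hp).2.2.2
  have hlt : ∀ β ∈ range (K * Z),
      ∑ p ∈ P.filter (fun p => Nat.log 2 ((p - b) / M) = β), (1 : ℝ) / p < c / M / (K * Z) := by
    intro β hβ
    rcases (P.filter (fun p => Nat.log 2 ((p - b) / M) = β)).eq_empty_or_nonempty with he | hne
    · rw [he, sum_empty]; positivity
    · obtain ⟨p0, hp0⟩ := hne
      rw [mem_filter] at hp0
      have hβ1 : Z ≤ β + μ + 1 := by rw [← hp0.2]; exact (hpt p0 hp0.1).2.2.1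
      have hcard := hcon β hβ1 (mem_range.1 hβ)
      have h1 : ∑ p ∈ P.filter (fun p => Nat.log 2 ((p - b) / M) = β), (1 : ℝ) / p ≤
          ∑ p ∈ P.filter (fun p => Nat.log 2 ((p - b) / M) = β), (1 : ℝ) / (M * 2 ^ β) := by
        apply sum_le_sum
        intro p hp
        rw [mem_filter] at hp
        obtain ⟨h2, h3, _, _⟩ := hpt p hp.1
        have h4 : 2 ^ β ≤ (p - b) / M := by
          rw [← hp.2]; exact Nat.pow_log_le_self 2 h3.ne'
        have h5 : M * 2 ^ β ≤ p := by
          have := Nat.mul_le_mul_left M h4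
          omega
        apply one_div_le_one_div_of_le (by positivity)
        exact_mod_cast h5
      rw [sum_const, nsmul_eq_mul] at h1
      have h2 : (P.filter (fun p => Nat.log 2 ((p - b) / M) = β)).card ≤
          ((range (2 ^ (β + 1))).filter (fun t => (b + M * t).Prime ∧ z < b + M * t)).card := by
        apply card_le_card_of_injOn (fun p => (p - b) / M)
        · intro p hp
          simp only [coe_filter, Set.mem_ofPred_eq] at hp
          obtain ⟨h2, h3, _, _⟩ := hpt p hp.1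
          have h4 := hp.1
          rw [hP, mem_filter, mem_Ioc] at h4
          simp only [coe_filter, mem_range, Set.mem_ofPred_eq]
          refine ⟨?_, ?_, ?_⟩
          · rw [← hp.2]; exact Nat.lt_pow_succ_log_self (by norm_num) _
          · rw [h2]; exact h4.2.1
          · rw [h2]; exact h4.1.1
        · intro p hp p' hp' heq
          simp only [coe_filter, Set.mem_ofPred_eq] at hp hp'
          have h3 := (hpt p hp.1).1
          have h4 := (hpt p' hp'.1).1
          simp only at heq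
          rw [← h3, ← h4, heq]
      have h3 : ((P.filter (fun p => Nat.log 2 ((p - b) / M) = β)).card : ℝ) <
          c * 2 ^ β / (K * Z) := lt_of_le_of_lt (by exact_mod_cast h2) hcard
      calc ∑ p ∈ P.filter (fun p => Nat.log 2 ((p - b) / M) = β), (1 : ℝ) / p
          ≤ ((P.filter (fun p => Nat.log 2 ((p - b) / M) = β)).card : ℝ) * (1 / (M * 2 ^ β)) := h1
        _ < c * 2 ^ β / (K * Z) * (1 / (M * 2 ^ β)) :=
            mul_lt_mul_of_pos_right h3 (by positivity)
        _ = c / M / (K * Z) := by field_simp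
  have hne : (range (K * Z)).Nonempty := by
    rw [nonempty_range_iff]
    positivity
  have htot := sum_lt_sum_of_nonempty hne hlt
  rw [← hfib, sum_const, card_range, nsmul_eq_mul] at htot
  have h1 : ((K * Z : ℕ) : ℝ) * (c / M / (K * Z)) = c / M := by
    push_cast
    field_simp
  rw [h1] at htot
  linarith

theorem bad_card (k L S a M G b : ℕ) (hk : 2 ≤ k) (ha : 0 < a)
    (hG : ∀ j < 2 ^ S, 2 * L ≤ j → ∀ h, h ∣ a + j → h ∣ M → h ≤ G)
    (hsize : ∀ j < 2 ^ S, a + j + M * 2 ^ b ≤ (2 ^ b) ^ 2) :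
    (((range (2 ^ b)).filter (fun t => (1 / 2 : ℝ) ≤ ∑ j ∈ Ico (2 * L) (2 ^ S),
      ((a + j + M * t).divisors.card : ℝ) * ((k : ℝ) ^ L / (k : ℝ) ^ (j + 1)))).card : ℝ) ≤
      2 ^ b * (4 * G * (2 + b)) / 2 ^ L := by
  classical
  set W : ℕ → ℝ := fun t => ∑ j ∈ Ico (2 * L) (2 ^ S),
      ((a + j + M * t).divisors.card : ℝ) * ((k : ℝ) ^ L / (k : ℝ) ^ (j + 1)) with hW
  have hW0 : ∀ t, 0 ≤ W t := fun t => sum_nonneg fun j _ => by positivity
  have hB : ∑ t ∈ range (2 ^ b), W t ≤ (2 ^ b * (2 * G * (2 + b))) * (1 / 2 ^ L) := by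
    rw [hW]
    simp only
    rw [Finset.sum_comm]
    have hB : ∑ j ∈ Ico (2 * L) (2 ^ S), ∑ t ∈ range (2 ^ b),
        ((a + j + M * t).divisors.card : ℝ) * ((k : ℝ) ^ L / (k : ℝ) ^ (j + 1)) ≤
        ∑ j ∈ Ico (2 * L) (2 ^ S),
          (2 ^ b * (2 * G * (2 + b))) * ((k : ℝ) ^ L / (k : ℝ) ^ (j + 1)) := by
      apply Finset.sum_le_sum
      intro j hj
      rw [mem_Ico] at hj
      rw [← Finset.sum_mul]
      have := avg_tau (a + j) M G b (by omega) (hG j hj.2 hj.1) (hsize j hj.2)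
      have h0 : (0 : ℝ) ≤ (k : ℝ) ^ L / (k : ℝ) ^ (j + 1) := by positivity
      exact mul_le_mul_of_nonneg_right this h0
    rw [← Finset.mul_sum] at hB
    refine hB.trans ?_
    exact mul_le_mul_of_nonneg_left (geom_bound k L (2 ^ S) hk) (by positivity)
  have hC : (((range (2 ^ b)).filter (fun t => (1 / 2 : ℝ) ≤ W t)).card : ℝ) * (1 / 2) ≤
      ∑ t ∈ range (2 ^ b), W t := by
    calc (((range (2 ^ b)).filter (fun t => (1 / 2 : ℝ) ≤ W t)).card : ℝ) * (1 / 2)
        = ∑ t ∈ (range (2 ^ b)).filter (fun t => (1 / 2 : ℝ) ≤ W t), (1 / 2 : ℝ) := by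
          rw [sum_const, nsmul_eq_mul]
      _ ≤ ∑ t ∈ (range (2 ^ b)).filter (fun t => (1 / 2 : ℝ) ≤ W t), W t :=
          sum_le_sum fun t ht => (mem_filter.1 ht).2
      _ ≤ ∑ t ∈ range (2 ^ b), W t :=
          sum_le_sum_of_subset_of_nonneg (filter_subset _ _) fun t _ _ => hW0 t
  have h2 : (2 : ℝ) ^ b * (4 * G * (2 + b)) / 2 ^ L =
      2 * ((2 ^ b * (2 * G * (2 + b))) * (1 / 2 ^ L)) := by ring
  rw [h2]
  linarith

end Pool.Agent.Y951.EB
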