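import Pool.Agent.Y951.EB.Main

/-!
# Every block occurs often; no automatic sequence
-/

set_option autoImplicit false

namespace Pool.Agent.Y951.EB

open Finset Pool.Agent.Results.MP_29e051_nt.NotAutomatic

theorem exists_word (k : ℕ) (l : ℕ) (w : ℕ → ℕ) (hw : ∀ r < l, w r < k) :
    ∃ W : ℕ, ∀ r < l, W / k ^ (l - 1 - r) % k = w r := by
  induction l with
  | zero => exact ⟨0, fun r hr => by omega⟩
  | succ l ih =>
    obtain ⟨W, hW⟩ := ih (fun r hr => hw r (by omega))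
    have hl := hw l (by omega)
    have hk : 0 < k := by omega
    refine ⟨k * W + w l, fun r hr => ?_⟩
    rcases Nat.lt_or_ge r l with h | h
    · have h1 : l + 1 - 1 - r = (l - 1 - r) + 1 := by omega
      rw [h1, pow_succ', ← Nat.div_div_eq_div_mul, Nat.mul_add_div hk, Nat.div_eq_of_lt hl,
        add_zero]
      exact hW r h
    · have h1 : r = l := by omega
      subst h1
      have h2 : r + 1 - 1 - r = 0 := by omega
      rw [h2, pow_zero, Nat.div_one, Nat.mul_add_mod, Nat.mod_eq_of_lt hl]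

theorem freq : ∃ c : ℝ, 0 < c ∧ ∀ k : ℕ, 2 ≤ k → ∀ h : ℕ, 1 ≤ h → ∀ (l : ℕ) (w : ℕ → ℕ),
    (∀ r < l, w r < k) → ∃ N₀ : ℕ, ∀ N : ℕ, N₀ ≤ N →
    (N : ℝ) ^ c ≤ (((Icc 1 N).filter (fun n => ∀ r < l,
      ⌊(h : ℝ) * lambertValue k * (k : ℝ) ^ (n + r)⌋₊ % k = w r)).card : ℝ) := by
  classical
  obtain ⟨K, hK, hmany⟩ := many
  refine ⟨1 / (4 * ((K : ℝ) + 1)), by positivity, fun k hk h hh l w hw => ?_⟩
  obtain ⟨W, hW⟩ := exists_word k l w hw
  -- the multiple of `2 h`
  have hk2 : 2 * h < k ^ (2 * h) := Nat.lt_pow_self (by omega)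
  set a := 2 * h with ha
  have ha0 : 0 < a := by omega
  obtain ⟨d, hd⟩ : ∃ d, h * ((d + 1) * 2) / k ^ a = W := by
    refine ⟨W * k ^ a / a, ?_⟩
    have h1 : h * ((W * k ^ a / a + 1) * 2) = a * (W * k ^ a / a) + a := by rw [ha]; ring
    rw [h1]
    have h2 := Nat.div_add_mod (W * k ^ a) a
    have h3 := Nat.mod_lt (W * k ^ a) ha0
    have h4 : (W + 1) * k ^ a = W * k ^ a + k ^ a := by ring
    rw [Nat.div_eq_iff (by positivity)]
    constructor
    · omega
    · omega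
  have hdig : ∀ r < l, h * ((d + 1) * 2) / k ^ (l - 1 + a - r) % k = w r := by
    intro r hr
    have h1 : l - 1 + a - r = a + (l - 1 - r) := by omega
    rw [h1, pow_add, ← Nat.div_div_eq_div_mul, hd]
    exact hW r hr
  obtain ⟨σ0, hσ0⟩ := hmany k hk h (l - 1 + a) d
  refine ⟨2 ^ ((K + 1) * 2 ^ (σ0 + 1)), fun N hN => ?_⟩
  set lam := Nat.log 2 N with hlam
  set σ := Nat.log 2 (lam / (K + 1)) with hσ
  have hN0 : N ≠ 0 := by
    have : 0 < 2 ^ ((K + 1) * 2 ^ (σ0 + 1)) := by positivity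
    omega
  have hlam1 : (K + 1) * 2 ^ (σ0 + 1) ≤ lam := Nat.le_log_of_pow_le (by norm_num) hN
  have hdiv1 : 2 ^ (σ0 + 1) ≤ lam / (K + 1) := by
    rw [Nat.le_div_iff_mul_le (by omega), mul_comm]
    exact hlam1
  have hσ1 : σ0 + 1 ≤ σ := Nat.le_log_of_pow_le (by norm_num) hdiv1
  have hne : lam / (K + 1) ≠ 0 := by
    have : 0 < 2 ^ (σ0 + 1) := by positivity
    omega
  have h1 : 2 ^ σ ≤ lam / (K + 1) := Nat.pow_log_le_self 2 hne
  have h2 : lam / (K + 1) < 2 ^ (σ + 1) := Nat.lt_pow_succ_log_self (by norm_num) _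
  have h3 : 2 ^ ((K + 1) * 2 ^ σ) ≤ N := by
    calc 2 ^ ((K + 1) * 2 ^ σ) ≤ 2 ^ lam := by
          apply Nat.pow_le_pow_right (by norm_num)
          rw [Nat.le_div_iff_mul_le (by omega), mul_comm] at h1
          exact h1
      _ ≤ N := Nat.pow_log_le_self 2 hN0
  have h4 : N ≤ 2 ^ ((K + 1) * 2 ^ (σ + 1)) := by
    have h5 : N < 2 ^ (lam + 1) := Nat.lt_pow_succ_log_self (by norm_num) _
    refine h5.le.trans (Nat.pow_le_pow_right (by norm_num) ?_)
    rw [Nat.div_lt_iff_lt_mul (by omega), mul_comm] at h2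
    omega
  have h5 := hσ0 σ (by omega)
  have h6 : ((Icc 1 (2 ^ ((K + 1) * 2 ^ σ))).filter (fun n => ∀ r ≤ l - 1 + a,
      ⌊(h : ℝ) * lambertValue k * (k : ℝ) ^ (n + r)⌋₊ % k =
        (h * ((d + 1) * 2) / k ^ (l - 1 + a - r)) % k)).card ≤
      ((Icc 1 N).filter (fun n => ∀ r < l,
        ⌊(h : ℝ) * lambertValue k * (k : ℝ) ^ (n + r)⌋₊ % k = w r)).card := by
    apply card_le_card
    intro n hn
    rw [mem_filter, mem_Icc] at hn ⊢
    refine ⟨⟨hn.1.1, hn.1.2.trans h3⟩, fun r hr => ?_⟩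
    rw [hn.2 r (by omega)]
    exact hdig r hr
  have h7 : (2 : ℝ) ^ (2 ^ (σ - 1)) ≤ (((Icc 1 N).filter (fun n => ∀ r < l,
      ⌊(h : ℝ) * lambertValue k * (k : ℝ) ^ (n + r)⌋₊ % k = w r)).card : ℝ) := by
    exact_mod_cast h5.trans h6
  refine le_trans ?_ h7
  have h8 : (N : ℝ) ≤ (2 : ℝ) ^ (((K + 1) * 2 ^ (σ + 1) : ℕ) : ℝ) := by
    rw [Real.rpow_natCast]
    exact_mod_cast h4
  calc (N : ℝ) ^ (1 / (4 * ((K : ℝ) + 1)))
      ≤ ((2 : ℝ) ^ (((K + 1) * 2 ^ (σ + 1) : ℕ) : ℝ)) ^ (1 / (4 * ((K : ℝ) + 1))) :=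
        Real.rpow_le_rpow (by positivity) h8 (by positivity)
    _ = (2 : ℝ) ^ (((2 ^ (σ - 1) : ℕ) : ℝ)) := by
        rw [← Real.rpow_mul (by norm_num)]
        congr 1
        have h9 : σ + 1 = (σ - 1) + 2 := by omega
        rw [h9, pow_add]
        push_cast
        field_simp
    _ = (2 : ℝ) ^ (2 ^ (σ - 1)) := by rw [Real.rpow_natCast]

theorem not_auto (k m s h : ℕ) (hk : 2 ≤ k) (hm : 2 ≤ m) (hh : 1 ≤ h) :
    ¬ IsAutomatic m (fun n => ⌊(h : ℝ) * lambertValue k * (k : ℝ) ^ (n + s)⌋₊ % k) := by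
  classical
  intro hauto
  obtain ⟨c, hc, hfreq⟩ := freq
  obtain ⟨F, hF, φ, hφ⟩ := automatic_blocks m k hm (by omega) _
    (fun n => Nat.mod_lt _ (by omega)) hauto
  obtain ⟨w0, hw0⟩ := poly_lt_two_pow (Fintype.card F * Fintype.card F)
  set L := m ^ w0 with hL
  have hLw : w0 ≤ L := (Nat.lt_pow_self (by omega : 1 < m)).le
  have hL0 : 0 < L := by positivity
  have hbig := hw0 L hLw
  -- every word occurs late
  have hocc : ∀ w : Fin L → Fin k, ∃ n, s + L < n ∧ ∀ r (hr : r < L),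
      ⌊(h : ℝ) * lambertValue k * (k : ℝ) ^ (n + r)⌋₊ % k = w ⟨r, hr⟩ := by
    intro w
    obtain ⟨N0, hN0⟩ := hfreq k hk h hh L
      (fun r => if hr : r < L then (w ⟨r, hr⟩ : ℕ) else 0) (fun r hr => by
        simp only [hr, dif_pos]
        exact (w ⟨r, hr⟩).2)
    have htend : Filter.Tendsto (fun N : ℕ => (N : ℝ) ^ c) Filter.atTop Filter.atTop :=
      (tendsto_rpow_atTop hc).comp tendsto_natCast_atTop_atTop
    obtain ⟨N, hN1, hN2⟩ := ((htend.eventually_gt_atTop ((s + L : ℕ) : ℝ)).and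
      (Filter.eventually_ge_atTop N0)).exists
    have h1 := hN1.trans_le (hN0 N hN2)
    have h2 : s + L < ((Icc 1 N).filter (fun n => ∀ r < L,
      ⌊(h : ℝ) * lambertValue k * (k : ℝ) ^ (n + r)⌋₊ % k =
        (if hr : r < L then (w ⟨r, hr⟩ : ℕ) else 0))).card := by exact_mod_cast h1
    have h3 : (Icc 1 (s + L)).card < ((Icc 1 N).filter (fun n => ∀ r < L,
      ⌊(h : ℝ) * lambertValue k * (k : ℝ) ^ (n + r)⌋₊ % k =
        (if hr : r < L then (w ⟨r, hr⟩ : ℕ) else 0))).card := by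
      rwa [Nat.card_Icc, Nat.add_sub_cancel]
    obtain ⟨n, hn1, hn2⟩ := exists_mem_notMem_of_card_lt_card h3
    rw [mem_filter, mem_Icc] at hn1
    rw [mem_Icc] at hn2
    refine ⟨n, by omega, fun r hr => ?_⟩
    have := hn1.2 r hr
    rwa [dif_pos hr] at this
  choose n hn1 hn2 using hocc
  -- the key of a word
  let key : (Fin L → Fin k) → F × F × Fin L := fun w =>
    (φ ((n w - s) / L), φ ((n w - s) / L + 1), ⟨(n w - s) % L, Nat.mod_lt _ hL0⟩)
  have hinj : Function.Injective key := by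
    intro w w' hww
    simp only [key, Prod.mk.injEq, Fin.mk.injEq] at hww
    obtain ⟨e1, e2, e3⟩ := hww
    have hq : ∀ v, 0 < (n v - s) / L := fun v => Nat.div_pos (by have := hn1 v; omega) hL0
    have hdm : ∀ v, L * ((n v - s) / L) + (n v - s) % L = n v - s := fun v => Nat.div_add_mod _ _
    funext ⟨r, hr⟩
    apply Fin.ext
    rw [← hn2 w r hr, ← hn2 w' r hr]
    have hw1 := hn1 w
    have hw2 := hn1 w'
    have hd1 : (n w - s) / L * L + (n w - s) % L = n w - s := by rw [mul_comm]; exact hdm w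
    have hd2 : (n w' - s) / L * L + (n w - s) % L = n w' - s := by
      rw [mul_comm, e3]; exact hdm w'
    rcases Nat.lt_or_ge ((n w - s) % L + r) L with h1 | h1
    · have h2 := hφ w0 _ _ (hq w) (hq w') e1 ((n w - s) % L + r) h1
      rw [← hL] at h2
      have h3 : (n w - s) / L * L + ((n w - s) % L + r) + s = n w + r := by omega
      have h4 : (n w' - s) / L * L + ((n w - s) % L + r) + s = n w' + r := by omega
      rw [h3, h4] at h2
      exact h2
    · have h1' : (n w - s) % L + r - L < L := by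
        have := Nat.mod_lt (n w - s) hL0
        omega
      have h2 := hφ w0 _ _ (Nat.succ_pos _) (Nat.succ_pos _) e2 ((n w - s) % L + r - L) h1'
      rw [← hL] at h2
      simp only [Nat.succ_eq_add_one] at h2
      have h3 : ((n w - s) / L + 1) * L + ((n w - s) % L + r - L) + s = n w + r := by
        rw [add_mul, one_mul]
        omega
      have h4 : ((n w' - s) / L + 1) * L + ((n w - s) % L + r - L) + s = n w' + r := by
        rw [add_mul, one_mul]
        omega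
      rw [h3, h4] at h2
      exact h2
  have hcard := Fintype.card_le_of_injective key hinj
  rw [Fintype.card_fun, Fintype.card_prod, Fintype.card_prod, Fintype.card_fin,
    Fintype.card_fin] at hcard
  have h1 : 2 ^ L ≤ k ^ L := Nat.pow_le_pow_left hk L
  have h2 : Fintype.card F * (Fintype.card F * L) ≤
      Fintype.card F * Fintype.card F * (L + 1) ^ 7 := by
    rw [← mul_assoc]
    apply Nat.mul_le_mul_left
    calc L ≤ L + 1 := by omega
      _ ≤ (L + 1) ^ 7 := Nat.le_self_pow (by norm_num) _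
  omega

end Pool.Agent.Y951.EB
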