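import Pool.Agent.Y951.EB.Count
import Pool.Agent.Y835.SC.Page

/-!
# Many places with prescribed digits
-/

set_option autoImplicit false

namespace Pool.Agent.Y951.EB

open Finset Pool.Agent.Results.MP_29e051_nt.NotAutomatic

theorem params (k d κ i z0 : ℕ) (c : ℝ) (hc : 0 < c) : ∃ σ0 : ℕ, ∀ σ ≥ σ0,
    16 * ((8 * (3 * (σ + κ)) ^ 2 + (σ + κ)) * (4 * (3 * (σ + κ)) ^ 2 * k)) +
      8 * (3 * (σ + κ) + d + 8 + (σ + κ)) ≤ 2 ^ σ ∧ 1 ≤ σ ∧
    16 * 2 ^ d ≤ c * 2 ^ (σ + κ) ∧ 1 ≤ c * 2 ^ (σ + κ) ∧ z0 ≤ 2 ^ 2 ^ σ ∧ i < 3 * (σ + κ) := by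
  obtain ⟨w0, hw0⟩ := poly_lt_two_pow ((42048 * k + 8 * (12 + d)) * (κ + 1) ^ 4)
  obtain ⟨n1, hn1⟩ := pow_unbounded_of_one_lt (16 * 2 ^ d / c) (by norm_num : (1 : ℝ) < 2)
  refine ⟨w0 + n1 + z0 + i + 1, fun σ hσ => ?_⟩
  have hbig : 16 * 2 ^ d ≤ c * 2 ^ (σ + κ) := by
    rw [div_lt_iff₀ hc] at hn1
    have h1 : (2 : ℝ) ^ n1 ≤ 2 ^ (σ + κ) := pow_le_pow_right₀ (by norm_num) (by omega)
    nlinarith
  refine ⟨?_, by omega, hbig, ?_, ?_, by omega⟩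
  · have h1 := hw0 σ (by omega)
    set S := σ + κ with hS
    have hS1 : 1 ≤ S := by omega
    have h2 : S ≤ (κ + 1) * (σ + 1) := by rw [hS]; nlinarith
    have h3 : S ^ 4 ≤ (κ + 1) ^ 4 * (σ + 1) ^ 7 := by
      calc S ^ 4 ≤ ((κ + 1) * (σ + 1)) ^ 4 := Nat.pow_le_pow_left h2 4
        _ = (κ + 1) ^ 4 * (σ + 1) ^ 4 := by rw [mul_pow]
        _ ≤ (κ + 1) ^ 4 * (σ + 1) ^ 7 :=
          Nat.mul_le_mul_left _ (Nat.pow_le_pow_right (by omega) (by norm_num))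
    have h4 : S ≤ S ^ 2 := Nat.le_self_pow (by norm_num) S
    have h5 : S ≤ S ^ 4 := Nat.le_self_pow (by norm_num) S
    have h6 : 1 ≤ S ^ 4 := Nat.one_le_pow _ _ hS1
    have h7 : (8 * (3 * S) ^ 2 + S) * (4 * (3 * S) ^ 2 * k) ≤ 2628 * k * S ^ 4 := by
      calc (8 * (3 * S) ^ 2 + S) * (4 * (3 * S) ^ 2 * k)
          ≤ (8 * (3 * S) ^ 2 + S ^ 2) * (4 * (3 * S) ^ 2 * k) :=
            Nat.mul_le_mul_right _ (by omega)
        _ = 2628 * k * S ^ 4 := by ring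
    have h8 : 8 * (3 * S + d + 8 + S) ≤ 8 * (12 + d) * S ^ 4 := by
      have : d ≤ d * S ^ 4 := Nat.le_mul_of_pos_right d h6
      nlinarith
    calc 16 * ((8 * (3 * S) ^ 2 + S) * (4 * (3 * S) ^ 2 * k)) + 8 * (3 * S + d + 8 + S)
        ≤ 16 * (2628 * k * S ^ 4) + 8 * (12 + d) * S ^ 4 := by omega
      _ = (42048 * k + 8 * (12 + d)) * S ^ 4 := by ring
      _ ≤ (42048 * k + 8 * (12 + d)) * ((κ + 1) ^ 4 * (σ + 1) ^ 7) := Nat.mul_le_mul_left _ h3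
      _ = (42048 * k + 8 * (12 + d)) * (κ + 1) ^ 4 * (σ + 1) ^ 7 := by ring
      _ ≤ 2 ^ σ := h1.le
  · have : (1 : ℝ) ≤ 2 ^ d := one_le_pow₀ (by norm_num)
    linarith
  · have h1 : σ < 2 ^ σ := Nat.lt_two_pow_self
    have h2 : 2 ^ σ < 2 ^ 2 ^ σ := Nat.lt_two_pow_self
    omega

/-- many places with prescribed digits -/
theorem many : ∃ K : ℕ, 1 ≤ K ∧ ∀ k : ℕ, 2 ≤ k → ∀ h i d : ℕ, ∃ σ0 : ℕ, ∀ σ ≥ σ0,
    2 ^ 2 ^ (σ - 1) ≤ ((Icc 1 (2 ^ ((K + 1) * 2 ^ σ))).filter (fun n => ∀ r ≤ i,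
      ⌊(h : ℝ) * lambertValue k * (k : ℝ) ^ (n + r)⌋₊ % k =
        (h * ((d + 1) * 2) / k ^ (i - r)) % k)).card := by
  classical
  obtain ⟨K, c, hK, hc, z0, hpage⟩ := Pool.Agent.Y835.SC.page
  refine ⟨K, hK, fun k hk h i d => ?_⟩
  obtain ⟨σ0, hσ0⟩ := params k d (K + 2) (i + h) z0 c hc
  refine ⟨σ0, fun σ hσ => ?_⟩
  obtain ⟨hP, hσ1, hc1, hc2, hz0, hiL⟩ := hσ0 σ hσ
  set S := σ + (K + 2) with hS
  set L := 3 * S with hL
  set μ := (8 * L ^ 2 + S) * (4 * L ^ 2 * k) with hμ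
  set Z := 2 ^ σ with hZ
  set z := 2 ^ Z with hz
  have hL0 : 0 < L := by omega
  replace hiL : i + h < L := hiL
  have hSZ : 2 ^ S = 2 ^ (K + 2) * Z := by rw [hS, pow_add, mul_comm]
  have hKS : 4 * (K * Z) ≤ 2 ^ S := by
    have h1 : K < 2 ^ K := Nat.lt_two_pow_self
    have h2 : 2 ^ (K + 2) = 4 * 2 ^ K := by rw [pow_add]; ring
    rw [hSZ, h2]
    nlinarith
  have hZKZ : Z ≤ K * Z := Nat.le_mul_of_pos_left _ hK
  have h2L : 2 * L ≤ 2 ^ S := by omega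
  obtain ⟨q₁, hq₁, hpage⟩ := hpage z hz0
  obtain ⟨p0, hp0⟩ := exists_primes (2 ^ S) (by positivity)
  have hp0mono : StrictMono p0 := by
    apply strictMono_nat_of_lt_succ
    intro r
    exact (hp0 r).2.2.trans_lt (hp0 (r + 1)).2.1
  have hD : 0 < 2 ^ d := by positivity
  have hD2 : ∀ r : ℕ, r.Prime → r ∣ 2 ^ d → r ≤ 2 := fun r hr h =>
    ((Nat.prime_dvd_prime_iff_eq hr Nat.prime_two).1 (hr.dvd_of_dvd_pow h)).le
  have hcons : ∀ e : ℕ, e ≤ 1 → ∃ b M : ℕ, 2 ^ S < M ∧ M ≤ 2 ^ μ ∧ M ≤ b ∧ b < 2 * M ∧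
      b.Coprime M ∧
      (∀ t, ∀ j < 2 * L, j ≠ i →
        k ^ (2 * L) ∣ (2 ^ d * b - i + j + 2 ^ d * M * t).divisors.card) ∧
      (∀ j < 2 ^ S, 2 * L ≤ j → ∀ h, h ∣ 2 ^ d * b - i + j → h ∣ 2 ^ d * M → h ≤ 2 ^ d) ∧
      (∀ r : ℕ, r.Prime → r ∣ M → ∃ u, r = p0 (2 * u + e)) := by
    intro e he
    refine construct2 k L i S (2 ^ d) (fun u => p0 (2 * u + e)) hk hL0 (by omega) h2L hD hD2
      (fun r => (hp0 _).1) (fun r => ?_) (fun r r' h => hp0mono (by omega)) (fun r => ?_)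
    · have h1 := (hp0 (2 * r + e)).2.1
      have h2 : 1 ≤ 2 ^ (2 * r + e) := Nat.one_le_two_pow
      nlinarith [Nat.one_le_two_pow (n := S)]
    · refine (hp0 (2 * r + e)).2.2.trans ?_
      rw [← pow_add]
      exact Nat.pow_le_pow_right (by norm_num) (by omega)
  obtain ⟨b, M, hMS, hMμ, hMb, hbM, hbMc, hdiv, hgcd, hq1⟩ : ∃ b M : ℕ, 2 ^ S < M ∧ M ≤ 2 ^ μ ∧
      M ≤ b ∧ b < 2 * M ∧ b.Coprime M ∧
      (∀ t, ∀ j < 2 * L, j ≠ i →
        k ^ (2 * L) ∣ (2 ^ d * b - i + j + 2 ^ d * M * t).divisors.card) ∧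
      (∀ j < 2 ^ S, 2 * L ≤ j → ∀ h, h ∣ 2 ^ d * b - i + j → h ∣ 2 ^ d * M → h ≤ 2 ^ d) ∧
      ¬ q₁ ∣ M := by
    obtain ⟨b, M, h1, h2, h3, h4, h5, h6, h7, h8⟩ := hcons 0 (by norm_num)
    obtain ⟨b', M', h1', h2', h3', h4', h5', h6', h7', h8'⟩ := hcons 1 le_rfl
    by_cases hqM : q₁ ∣ M
    · refine ⟨b', M', h1', h2', h3', h4', h5', h6', h7', fun hqM' => ?_⟩
      obtain ⟨r, hr, hrq⟩ := Nat.exists_prime_and_dvd (by omega : q₁ ≠ 1)
      obtain ⟨u, hu⟩ := h8 r hr (hrq.trans hqM)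
      obtain ⟨u', hu'⟩ := h8' r hr (hrq.trans hqM')
      have := hp0mono.injective (hu.symm.trans hu')
      omega
    · exact ⟨b, M, h1, h2, h3, h4, h5, h6, h7, hqM⟩
  have hM0 : 0 < M := by omega
  have hM0' : (0 : ℝ) < M := by exact_mod_cast hM0
  have hZ1 : 1 ≤ Z := Nat.one_le_two_pow
  -- primes
  have hM16 : M ^ 16 ≤ z := by
    calc M ^ 16 ≤ (2 ^ μ) ^ 16 := Nat.pow_le_pow_left hMμ 16
      _ = 2 ^ (16 * μ) := by rw [← pow_mul]; ring_nf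
      _ ≤ 2 ^ Z := Nat.pow_le_pow_right (by norm_num) (by omega)
  have hsum : c / (M : ℝ) ≤
      ∑ p ∈ (Ioc z (z ^ K)).filter (fun p => p.Prime ∧ p ≡ b [MOD M]), (1 : ℝ) / p := by
    refine le_trans ?_ (hpage M b hM0 hM16 hq1 hbMc)
    have h1 : (0 : ℝ) < M.totient := by exact_mod_cast Nat.totient_pos.2 hM0
    have h2 : (M.totient : ℝ) ≤ M := by exact_mod_cast Nat.totient_le M
    exact div_le_div_of_nonneg_left hc.le h1 h2
  obtain ⟨β, hβ1, hβ2, hβ3⟩ := dyadic z M b K Z μ c hz hM0 hMμ (by omega) hbM hK hc hsum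
  -- sizes
  have hDM : 2 ^ d * M ≤ 2 ^ (d + μ) := by
    rw [pow_add]; exact Nat.mul_le_mul_left _ hMμ
  have hbd : M ≤ 2 ^ d * b := hMb.trans (Nat.le_mul_of_pos_left b hD)
  have hbd2 : 2 ^ d * b < 2 * (2 ^ d * M) := by nlinarith
  have hSM : 2 ^ S ≤ 2 ^ d * M := hMS.le.trans (Nat.le_mul_of_pos_left M hD)
  have ha0 : 0 < 2 ^ d * b - i := by omega
  have hsize : ∀ j < 2 ^ S, 2 ^ d * b - i + j + 2 ^ d * M * 2 ^ (β + 1) ≤ (2 ^ (β + 1)) ^ 2 := by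
    intro j hj
    have h1 : 2 ^ (d + μ) ≤ 2 ^ β := Nat.pow_le_pow_right (by norm_num) (by omega)
    have h2 : 2 ^ (β + 1) = 2 * 2 ^ β := by rw [pow_succ']
    have h3 : 2 ^ d * M ≤ 2 ^ β := hDM.trans h1
    have h4 : 4 ≤ 2 ^ β := by
      calc 4 = 2 ^ 2 := by norm_num
        _ ≤ 2 ^ β := Nat.pow_le_pow_right (by norm_num) (by omega)
    have h5 : (2 ^ (β + 1)) ^ 2 = 4 * (2 ^ β * 2 ^ β) := by rw [h2]; ring
    have h6 : 2 ^ d * M * 2 ^ (β + 1) ≤ 2 * (2 ^ β * 2 ^ β) := by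
      calc 2 ^ d * M * 2 ^ (β + 1) ≤ 2 ^ β * 2 ^ (β + 1) := Nat.mul_le_mul_right _ h3
        _ = 2 * (2 ^ β * 2 ^ β) := by rw [h2]; ring
    have h7 : 4 * 2 ^ β ≤ 2 ^ β * 2 ^ β := Nat.mul_le_mul_right _ h4
    rw [h5]
    omega
  have hbad := bad_card k L S (2 ^ d * b - i) (2 ^ d * M) (2 ^ d) (β + 1) hk ha0 hgcd hsize
  -- the good parameters
  set TT := (range (2 ^ (β + 1))).filter (fun t => (b + M * t).Prime ∧ z < b + M * t) with hTT
  set BB := (range (2 ^ (β + 1))).filter (fun t => (1 / 2 : ℝ) ≤ ∑ j ∈ Ico (2 * L) (2 ^ S),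
      ((2 ^ d * b - i + j + 2 ^ d * M * t).divisors.card : ℝ) *
        ((k : ℝ) ^ L / (k : ℝ) ^ (j + 1))) with hBB
  have hcardG : TT.card ≤ (TT \ BB).card + BB.card := by
    have := card_le_card (show TT ⊆ (TT \ BB) ∪ BB by
      intro t ht
      by_cases h : t ∈ BB
      · exact mem_union_right _ h
      · exact mem_union_left _ (mem_sdiff.2 ⟨ht, h⟩))
    exact this.trans (card_union_le _ _)
  have hKZ0 : (0 : ℝ) < (K : ℝ) * Z := by
    have : (0 : ℝ) < K := by exact_mod_cast hK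
    have : (0 : ℝ) < Z := by exact_mod_cast hZ1
    positivity
  have hKZr : (K : ℝ) * Z ≤ 2 ^ S / 4 := by
    have : (4 * (K * Z) : ℕ) ≤ 2 ^ S := hKS
    have h2 : (4 : ℝ) * ((K : ℝ) * Z) ≤ 2 ^ S := by exact_mod_cast this
    linarith
  have h8S : (8 : ℝ) ≤ 2 ^ S := by
    calc (8 : ℝ) = 2 ^ 3 := by norm_num
      _ ≤ 2 ^ S := pow_le_pow_right₀ (by norm_num) (by omega)
  have hG : c * 2 ^ β / (2 * ((K : ℝ) * Z)) ≤ ((TT \ BB).card : ℝ) := by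
    have h1 : (TT.card : ℝ) ≤ (TT \ BB).card + BB.card := by exact_mod_cast hcardG
    have h2 : (BB.card : ℝ) ≤ c * 2 ^ β / (2 * ((K : ℝ) * Z)) := by
      refine hbad.trans ?_
      rw [div_le_div_iff₀ (by positivity) (by positivity)]
      have hβr : (2 : ℝ) + ((β + 1 : ℕ) : ℝ) ≤ 2 ^ S := by
        have h3 : 2 + (β + 1) ≤ 2 ^ S := by omega
        exact_mod_cast h3
      have e1 : (2 : ℝ) ^ (β + 1) = 2 * 2 ^ β := by rw [pow_succ']
      have e2 : (2 : ℝ) ^ L = 2 ^ S * (2 ^ S * 2 ^ S) := by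
        rw [← pow_add, ← pow_add]; congr 1; omega
      rw [e1, e2]
      push_cast at hβr ⊢
      have hβ0 : (0 : ℝ) < 2 ^ β := by positivity
      have hS0 : (0 : ℝ) < 2 ^ S := by positivity
      have hd0 : (0 : ℝ) < 2 ^ d := by positivity
      calc 2 * 2 ^ β * (4 * (2 : ℝ) ^ d * (2 + ((β : ℝ) + 1))) * (2 * ((K : ℝ) * Z))
          ≤ 2 * 2 ^ β * (4 * 2 ^ d * 2 ^ S) * (2 * (2 ^ S / 4)) := by
            gcongr
        _ = 2 ^ β * 2 ^ S * 2 ^ S * (4 * 2 ^ d) := by ring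
        _ ≤ 2 ^ β * 2 ^ S * 2 ^ S * (c * 2 ^ S) := by
            apply mul_le_mul_of_nonneg_left _ (by positivity)
            linarith
        _ = c * 2 ^ β * (2 ^ S * (2 ^ S * 2 ^ S)) := by ring
    have h3 : c * 2 ^ β / ((K : ℝ) * Z) = 2 * (c * 2 ^ β / (2 * ((K : ℝ) * Z))) := by
      field_simp
    rw [h3] at hβ3
    linarith
  have hG2 : 2 ^ 2 ^ (σ - 1) ≤ (TT \ BB).card := by
    have h1 : (2 : ℝ) ^ (2 ^ (σ - 1)) ≤ c * 2 ^ β / (2 * ((K : ℝ) * Z)) := by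
      rw [le_div_iff₀ (by positivity)]
      have hZ2 : Z = 2 * 2 ^ (σ - 1) := by rw [hZ, ← pow_succ']; congr 1; omega
      have h2 : 2 ^ (σ - 1) + 2 * S ≤ β := by omega
      calc (2 : ℝ) ^ (2 ^ (σ - 1)) * (2 * ((K : ℝ) * Z))
          ≤ 2 ^ (2 ^ (σ - 1)) * (2 * (2 ^ S / 4)) := by gcongr
        _ ≤ 2 ^ (2 ^ (σ - 1)) * 2 ^ S := by
            apply mul_le_mul_of_nonneg_left _ (by positivity)
            linarith
        _ ≤ 2 ^ (2 ^ (σ - 1)) * 2 ^ S * (c * 2 ^ S) := by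
            apply le_mul_of_one_le_right (by positivity) hc2
        _ = c * 2 ^ (2 ^ (σ - 1) + 2 * S) := by
            rw [pow_add, show 2 * S = S + S by ring, pow_add]; ring
        _ ≤ c * 2 ^ β := by
            apply mul_le_mul_of_nonneg_left _ hc.le
            exact pow_le_pow_right₀ (by norm_num) h2
    exact_mod_cast h1.trans hG
  refine hG2.trans ?_
  apply card_le_card_of_injOn (fun t => 2 ^ d * b - i + 2 ^ d * M * t)
  · intro t ht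
    rw [mem_coe, mem_sdiff] at ht
    obtain ⟨ht1, ht2⟩ := ht
    rw [hTT, mem_filter, mem_range] at ht1
    obtain ⟨htr, htp, htz⟩ := ht1
    have ht3 : ∑ j ∈ Ico (2 * L) (2 ^ S),
      ((2 ^ d * b - i + j + 2 ^ d * M * t).divisors.card : ℝ) *
        ((k : ℝ) ^ L / (k : ℝ) ^ (j + 1)) < 1 / 2 := by
      by_contra hcon
      push Not at hcon
      exact ht2 (mem_filter.2 ⟨mem_range.2 htr, hcon⟩)
    set n := 2 ^ d * b - i + 2 ^ d * M * t with hn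
    have hnj : ∀ j, n + j = 2 ^ d * b - i + j + 2 ^ d * M * t := by
      intro j; omega
    have hni : n + i = 2 ^ d * (b + M * t) := by
      rw [hnj]
      have : 2 ^ d * (b + M * t) = 2 ^ d * b + 2 ^ d * M * t := by ring
      omega
    have hnlt : n + 2 ^ S ≤ 2 ^ (d + μ + K * Z + 3) := by
      have h1 : t + 1 ≤ 2 ^ (K * Z) := by
        have : 2 ^ (β + 1) ≤ 2 ^ (K * Z) := Nat.pow_le_pow_right (by norm_num) (by omega)
        omega
      have h2 : 2 ^ d * M * (t + 1) ≤ 2 ^ (d + μ) * 2 ^ (K * Z) := Nat.mul_le_mul hDM h1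
      have h3 : 2 ^ d * M * (t + 1) = 2 ^ d * M * t + 2 ^ d * M := by ring
      have h4 : 2 ^ (d + μ + K * Z + 3) = 8 * (2 ^ (d + μ) * 2 ^ (K * Z)) := by
        rw [pow_add, pow_add]; ring
      rw [h4]
      omega
    have hnle : n ≤ 2 ^ ((K + 1) * Z) := by
      have h1 : 2 ^ (d + μ + K * Z + 3) ≤ 2 ^ ((K + 1) * Z) := by
        apply Nat.pow_le_pow_right (by norm_num)
        rw [add_mul, one_mul]
        omega
      omega
    have hp2 : 2 < b + M * t := by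
      have : 2 ^ S < b + M * t := by omega
      omega
    have hcop : Nat.Coprime (2 ^ d) (b + M * t) := by
      apply Nat.Coprime.pow_left
      rw [Nat.coprime_primes Nat.prime_two htp]
      omega
    have hT : (n + i).divisors.card = (d + 1) * 2 := by
      rw [hni, Nat.Coprime.card_divisors_mul hcop, Nat.divisors_prime_pow Nat.prime_two,
        card_map, card_range, htp.divisors, card_pair htp.one_lt.ne]
    obtain ⟨ZZ, R, hR0, hR1, hR2⟩ := decomp k L i n (2 ^ S) (K * Z + μ + d + 2) hk (by omega) h2L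
      (fun j hj hji => by rw [hnj]; exact hdiv t j hj hji)
      (by simp only [hnj]; exact ht3)
      (hnlt.trans (Nat.pow_le_pow_right (by norm_num) (by omega))) (by omega)
    simp only [coe_filter, mem_Icc, Set.mem_ofPred_eq]
    refine ⟨⟨by omega, hnle⟩, fun r hr => ?_⟩
    have hk0 : (0 : ℝ) < k := by
      have : (2 : ℝ) ≤ k := by exact_mod_cast hk
      linarith
    have hhk : (h : ℝ) ≤ (k : ℝ) ^ h := by
      have h1 : h < k ^ h := Nat.lt_pow_self (by omega)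
      exact_mod_cast h1.le
    have := digits_of_decomp k (L - h) i n (h * (n + i).divisors.card) (h * ZZ)
      (h * lambertValue k) (h * R) hk (by omega) (by positivity) (by
        calc (h : ℝ) * R * (k : ℝ) ^ (L - h) ≤ (k : ℝ) ^ h * R * (k : ℝ) ^ (L - h) := by gcongr
          _ = R * ((k : ℝ) ^ (L - h) * (k : ℝ) ^ h) := by ring
          _ = R * (k : ℝ) ^ L := by rw [← pow_add]; congr 2; omega
          _ < 1 := hR1) (by
        rw [mul_assoc, hR2]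
        push_cast
        ring) r (by omega)
    rw [this, if_pos hr, hT]
  · intro t _ t' _ h
    simp only at h
    have h1 : 2 ^ d * M * t = 2 ^ d * M * t' := by omega
    exact Nat.eq_of_mul_eq_mul_left (by positivity) h1

end Pool.Agent.Y951.EB
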